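import Pool.Agent.H68.Qp5
import Pool.Agent.H68.QpDefs2

namespace Pool.Agent.Results.MP_2f4918_al.Implies

open Pool.Agent.H68.Qp

theorem result (B W : Type) [Group W] (M : CoxeterMatrix B) (cs : CoxeterSystem M W)
    (x : Wp cs) (hx : x ^ 2 = 1) (h1 : QP1 cs (cls cs x)) : QP2s cs (cls cs x) :=
  qp2 hx h1

end Pool.Agent.Results.MP_2f4918_al.Implies
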